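import Pool.Agent.Helper63.HO.P21
import Pool.Agent.Helper83.HO.P22
import Mathlib.Analysis.ODE.Gronwall

/-!
# Piece HO-24: geodesic fields are odd
-/

open MeasureTheory Set Metric Filter Module
open scoped NNReal Topology RealInnerProductSpace ENNReal Real ContDiff Manifold

namespace Pool.Agent.Helper19.HO

section Field

variable {E : Type*} [NormedAddCommGroup E] [InnerProductSpace ℝ E] [FiniteDimensional ℝ E]

/-- the great circle through `x` with direction `w`, `‖w‖ = r`. -/
private noncomputable def gc (x w : E) (r t : ℝ) : E := Real.cos t • x + (Real.sin t / r) • w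

omit [FiniteDimensional ℝ E] in
private theorem norm_gc {x w : E} {r : ℝ} (hr : 0 < r) (hx : ‖x‖ = 1) (hw : ‖w‖ = r)
    (hxw : ⟪x, w⟫ = 0) (t : ℝ) : ‖gc x w r t‖ = 1 := by
  have h : ‖gc x w r t‖ ^ 2 = 1 := by
    unfold gc
    rw [norm_add_sq_real, norm_smul, norm_smul, real_inner_smul_left, real_inner_smul_right, hxw,
      hx, hw, mul_pow, mul_pow, Real.norm_eq_abs, Real.norm_eq_abs, sq_abs, sq_abs]
    have h2 := Real.sin_sq_add_cos_sq t
    have h3 : (Real.sin t / r) ^ 2 * r ^ 2 = Real.sin t ^ 2 := by field_simp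
    rw [h3]
    linarith
  have h1 : (0 : ℝ) ≤ ‖gc x w r t‖ := norm_nonneg _
  nlinarith

omit [FiniteDimensional ℝ E] in
private theorem hasDerivAt_gc (x w : E) (r t : ℝ) :
    HasDerivAt (gc x w r) (-Real.sin t • x + (Real.cos t / r) • w) t := by
  unfold gc
  exact ((Real.hasDerivAt_cos t).smul_const x).add (((Real.hasDerivAt_sin t).div_const r).smul_const w)

omit [FiniteDimensional ℝ E] in
private theorem hasDerivAt_gc' (x w : E) (r t : ℝ) :
    HasDerivAt (fun t => -Real.sin t • x + (Real.cos t / r) • w) (-gc x w r t) t := by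
  have h := ((Real.hasDerivAt_sin t).neg.smul_const x).add
    (((Real.hasDerivAt_cos t).div_const r).smul_const w)
  refine h.congr_deriv ?_
  unfold gc
  rw [neg_add, neg_smul, ← neg_smul (Real.sin t / r) w, neg_div]

theorem odd_of_geodesic {k : ℕ} [Fact (finrank ℝ E = k + 1)] {W : sphere (0 : E) 1 → E}
    (hW : ContMDiff (𝓡 k) 𝓘(ℝ, E) 1 W) (ht : ∀ x : sphere (0 : E) 1, ⟪(x : E), W x⟫ = 0) {r : ℝ}
    (hr : 0 < r) (hn : ∀ x, ‖W x‖ = r) (hg : ∀ x : sphere (0 : E) 1, covDeriv W x (W x) = 0)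
    (x : sphere (0 : E) 1) : W (-x) = -W x := by
  have hZ : ContDiffOn ℝ 1 (hext W) {0}ᶜ := contDiffOn_hext hW
  have hx1 : ‖(x : E)‖ = 1 := mem_sphere_zero_iff_norm.1 x.2
  set c : ℝ → E := gc (x : E) (W x) r with hc
  set c' : ℝ → E := fun t => -Real.sin t • (x : E) + (Real.cos t / r) • W x with hc'
  have hcn : ∀ t, ‖c t‖ = 1 := norm_gc hr hx1 (hn x) (ht x)
  have hc0 : ∀ t, c t ∈ ({0}ᶜ : Set E) := fun t h => by
    have := hcn t
    rw [mem_singleton_iff.1 h, norm_zero] at this
    exact zero_ne_one this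
  have hcd : ∀ t, HasDerivAt c (c' t) t := fun t => hasDerivAt_gc _ _ _ _
  have hcd' : ∀ t, HasDerivAt c' (-c t) t := fun t => hasDerivAt_gc' _ _ _ _
  have hcc : Continuous c := continuous_iff_continuousAt.2 fun t => (hcd t).continuousAt
  -- the derivative along the curve
  have hdiff : ∀ t, DifferentiableAt ℝ (hext W) (c t) := fun t =>
    (hZ.contDiffAt (isOpen_compl_singleton.mem_nhds (hc0 t))).differentiableAt (by norm_num)
  have hTc : Continuous fun t => fderiv ℝ (hext W) (c t) := by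
    have := hZ.continuousOn_fderiv_of_isOpen isOpen_compl_singleton (by norm_num)
    exact this.comp_continuous hcc hc0
  obtain ⟨K, hK⟩ := (isCompact_Icc (a := (0 : ℝ)) (b := π)).exists_bound_of_continuousOn
    hTc.continuousOn
  -- `T (Z c) = - r ^ 2 c`
  have hTZ : ∀ t, fderiv ℝ (hext W) (c t) (hext W (c t)) = -(r ^ 2) • c t := by
    intro t
    set y : sphere (0 : E) 1 := ⟨c t, mem_sphere_zero_iff_norm.2 (hcn t)⟩ with hy
    have hyc : (y : E) = c t := rfl
    have h1 : hext W (c t) = W y := by rw [← hyc]; exact hext_coe W y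
    rw [h1, ← hyc, fderiv_hext_apply hW ht y, hg y, ht y, zero_smul,
      real_inner_self_eq_norm_sq, hn y, add_zero, zero_sub, neg_smul]
  set u : ℝ → E := fun t => hext W (c t) - r • c' t with hu
  have hud : ∀ t, HasDerivAt u (-(r⁻¹) • fderiv ℝ (hext W) (c t) (u t)) t := by
    intro t
    have h1 : HasDerivAt (fun t => hext W (c t)) (fderiv ℝ (hext W) (c t) (c' t)) t :=
      (hdiff t).hasFDerivAt.comp_hasDerivAt t (hcd t)
    have h2 := h1.sub ((hcd' t).const_smul r)
    refine h2.congr_deriv ?_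
    rw [hu]
    simp only [map_sub, map_smul, hTZ]
    rw [smul_sub, smul_smul, smul_smul]
    have e1 : -r⁻¹ * -r ^ 2 = r := by field_simp
    have e2 : -r⁻¹ * r = -1 := by field_simp
    rw [e1, e2, smul_neg, neg_smul, one_smul]
    abel
  have hu0 : u 0 = 0 := by
    have h1 : c 0 = (x : E) := by simp [hc, gc]
    have h2 : c' 0 = (1 / r) • W x := by simp [hc']
    rw [hu]
    simp only [h1, h2]
    rw [hext_coe, smul_smul, mul_one_div_cancel hr.ne', one_smul, sub_self]
  have hzero := eq_zero_of_abs_deriv_le_mul_abs_self_of_eq_zero_right (f := u)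
    (f' := fun t => -(r⁻¹) • fderiv ℝ (hext W) (c t) (u t)) (K := r⁻¹ * K) (a := 0) (b := π)
    (fun t _ => (hud t).continuousAt.continuousWithinAt) (fun t _ => (hud t).hasDerivWithinAt) hu0
    (fun t htt => by
      rw [norm_smul, norm_neg, norm_inv, Real.norm_of_nonneg hr.le, mul_assoc]
      refine mul_le_mul_of_nonneg_left ?_ (inv_nonneg.2 hr.le)
      exact ((fderiv ℝ (hext W) (c t)).le_opNorm _).trans
        (mul_le_mul_of_nonneg_right (hK t (Ico_subset_Icc_self htt)) (norm_nonneg _)))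
    π (right_mem_Icc.2 Real.pi_pos.le)
  have h1 : c π = ((-x : sphere (0 : E) 1) : E) := by simp [hc, gc]
  have h2 : c' π = -((1 / r) • W x) := by simp [hc', neg_div]
  rw [hu] at hzero
  simp only [h1, h2] at hzero
  rw [hext_coe, smul_neg, smul_smul, mul_one_div_cancel hr.ne', one_smul, sub_neg_eq_add] at hzero
  exact eq_neg_of_add_eq_zero_left hzero

end Field

end Pool.Agent.Helper19.HO
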